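import Pool.Agent.Run7.h90.AU.QuadL

set_option autoImplicit false

/-!
# The numbers `n - m ^ 3` at the members `m` of thin families of residues

Let `p` be a large prime and let `(v_i)`, `i ∈ s`, be a family of residues modulo `p` whose exponential sums
`∑ e(ξ v_i / p)`, `ξ ≠ 0`, are at most `p ^ (-ε) |s|`; the family may be very thin. Examples: the values of a sparse
polynomial of arbitrary degree on a subgroup of order `p ^ η`, the values `c_1 g_1 ^ t + ... + c_k g_k ^ t`, `t < T`,
`T ≥ p ^ η`. The theorem is about the integers `m` congruent to a member of the family modulo `p` in an interval of length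
`L ≥ p ^ (1 - δ)`: uniformly in all natural `n`, the numbers `|n - m ^ 3|` are free of small prime factors with the frequency
predicted by the local densities; they are almost primes for at least half of the expected number of the `m` and
primes for at most twice this number.

Proof: bound of Bourgain, Glibichuk and Konyagin in the form for recurrences and monomials (`Agent/Run7/h823/BK9`);
equidistribution in the residue classes modulo all integers up to `p ^ δ` and the fundamental lemma of the sieve
(`Agent/Run7/h90/AU`).
-/

namespace Pool.Agent.Results.MP_15f56c_nt.CubeSummandsInSparseFamilies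

open Finset Filter Topology
open Pool.Agent.Run7.h90.AU (MinusLaw cubeDensity SparseSmall RecurrencesSmall)

theorem result : MinusLaw (fun m => m ^ 3) (fun _ => True) cubeDensity ∧
    SparseSmall ∧ RecurrencesSmall :=
  ⟨Pool.Agent.Run7.h90.AU.cubes_law, Pool.Agent.Run7.h90.AU.sparse_small, Pool.Agent.Run7.h90.AU.rec_small⟩

end Pool.Agent.Results.MP_15f56c_nt.CubeSummandsInSparseFamilies
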